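import Mathlib

set_option autoImplicit false

/-!
Definitions for `MP_9410e4_ag.ConicBundles`.
-/

namespace Pool.Agent.Helper4.CBX

open AlgebraicGeometry CategoryTheory MvPolynomial

/-- The coordinate ring of the variety `x_i ^ 2 = a_i(t) y_i ^ 2 + b_i(t)`, `i = 1, ..., r`, over
the ring `R = K[t]`; here `x_i = X (i, false)` and `y_i = X (i, true)`. -/
abbrev ConRing {R : Type} [CommRing R] {r : ℕ} (a b : Fin r → R) : Type :=
  MvPolynomial (Fin r × Bool) R ⧸ Ideal.span (Set.range fun i : Fin r =>
    X (i, false) ^ 2 - C (a i) * X (i, true) ^ 2 - C (b i))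

/-- The points of the `K`-scheme `X` which are images of `L`-points of `X` over `K`. -/
def points (K : Type) [Field K] (X : Scheme.{0}) (s : X ⟶ Spec (CommRingCat.of K))
    (L : Type) [Field L] [Algebra K L] : Set X :=
  {x | ∃ p : Spec (CommRingCat.of L) ⟶ X,
    p ≫ s = Spec.map (CommRingCat.ofHom (algebraMap K L)) ∧ x ∈ Set.range p}

/-- The `K`-scheme `X` is potentially dense: `X(L)` is Zariski dense in `X` for some finite
extension `L` of `K`. -/
inductive PotentiallyDense (K : Type) [Field K] (X : Scheme.{0})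
    (s : X ⟶ Spec (CommRingCat.of K)) : Prop
  | intro (L : Type) [Field L] [Algebra K L] [FiniteDimensional K L]
      (h : Dense (points K X s L)) : PotentiallyDense K X s

/-- The `K`-scheme `X` is dominated by `Y`: some nonempty open subscheme of `Y` has a dominant
morphism over `K` to `X`. -/
def DominatedOver (K : Type) [Field K] (X Y : Scheme.{0})
    (s : X ⟶ Spec (CommRingCat.of K)) (t : Y ⟶ Spec (CommRingCat.of K)) : Prop :=
  ∃ (U : Y.Opens) (f : (U : Scheme.{0}) ⟶ X), Nonempty U ∧ IsDominant f ∧ f ≫ s = U.ι ≫ t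

end Pool.Agent.Helper4.CBX
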