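import Pool.Agent.Helper4.CBX.Defs
import Pool.Agent.Helper35.CB.TriThree

set_option autoImplicit false

/-!
The theorem on fibre products of conic bundles in terms of the definitions of `CBX/Defs.lean`.
-/

namespace Pool.Agent.Helper4.CBX

open AlgebraicGeometry CategoryTheory MvPolynomial

/-- the bijection of the indices of the variables -/
def ix (r : ℕ) : Fin r × Bool ≃ Fin r × Fin 2 :=
  Equiv.prodCongr (Equiv.refl _) finTwoEquiv.symm

theorem ideal_eq {R : Type} [CommRing R] {r : ℕ} (a b : Fin r → R) :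
    (Ideal.span (Set.range fun i : Fin r => (X (i, 0) ^ 2 - C (a i) * X (i, 1) ^ 2 - C (b i) :
      MvPolynomial (Fin r × Fin 2) R))) =
    Ideal.map (renameEquiv R (ix r) : MvPolynomial (Fin r × Bool) R →+* MvPolynomial (Fin r × Fin 2) R)
      (Ideal.span (Set.range fun i : Fin r =>
        (X (i, false) ^ 2 - C (a i) * X (i, true) ^ 2 - C (b i) :
          MvPolynomial (Fin r × Bool) R))) := by
  rw [Ideal.map_span, ← Set.range_comp]
  congr 2
  funext i
  simp [ix, finTwoEquiv]

/-- the two coordinate rings are isomorphic -/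
noncomputable def ringEquiv {R : Type} [CommRing R] {r : ℕ} (a b : Fin r → R) :
    ConRing a b ≃ₐ[R] Pool.Agent.Helper35.CB.ConRing a b :=
  Ideal.quotientEquivAlg _ _ (renameEquiv R (ix r)) (ideal_eq a b)

theorem main (K : Type) [Field K] [NumberField K] {n r : ℕ}
    (a b : Fin r → MvPolynomial (Fin n) K) (ha : ∀ i, a i ≠ 0) (hb : ∀ i, b i ≠ 0)
    (h : ∀ (i : Fin r) (P : MvPolynomial (Fin n) (AlgebraicClosure K)), Irreducible P →
      P ∣ map (algebraMap K (AlgebraicClosure K)) (a i * b i) → ∀ k, P.degreeOf k ≤ 3)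
    (X : Scheme.{0}) (s : X ⟶ Spec (CommRingCat.of K))
    (hX : DominatedOver K X (Spec (CommRingCat.of (ConRing a b))) s
      (Spec.map (CommRingCat.ofHom (algebraMap K (ConRing a b))))) :
    PotentiallyDense K X s := by
  obtain ⟨U, f, hU, hf, hc⟩ := hX
  let e : Pool.Agent.Helper35.CB.ConRing a b ≃ₐ[K] ConRing a b :=
    (ringEquiv a b).symm.restrictScalars K
  let i := RingEquiv.toCommRingCatIso (e : Pool.Agent.Helper35.CB.ConRing a b ≃+* ConRing a b)
  have h2 : CommRingCat.ofHom (algebraMap K (Pool.Agent.Helper35.CB.ConRing a b)) ≫ i.hom =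
      CommRingCat.ofHom (algebraMap K (ConRing a b)) := by
    ext x
    exact e.commutes x
  have h1 : Pool.Agent.Helper65.CB.DominatedOver K X
      (Spec (CommRingCat.of (Pool.Agent.Helper35.CB.ConRing a b))) s
      (Spec.map (CommRingCat.ofHom (algebraMap K (Pool.Agent.Helper35.CB.ConRing a b)))) := by
    refine ⟨U, f, U.ι ≫ Spec.map i.hom, hf, inferInstance, hU, ?_⟩
    rw [Category.assoc, ← Spec.map_comp, h2, hc]
  obtain ⟨L, i1, i2, i3, h3⟩ := Pool.Agent.Helper35.CB.t_tri_three K a b ha hb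
    (fun i P hP hd => Or.inl fun k _ => h i P hP hd k) X s h1
  exact PotentiallyDense.intro L h3

end Pool.Agent.Helper4.CBX
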